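import Pool.Agent.X31.S12
import Pool.Agent.X31.M3

/-!
# The Brun–Titchmarsh inequality with the constant `1`, for almost all residue classes and almost all moduli near
# the values of bilinear functions at pairs of integers with missing digits

`C₁`, `C₂` are sets of integers with `mᵢ` digits in base `bᵢ` whose digit at `bᵢ ^ j` is in `𝒟ᵢ j`, where the sets
`𝒟ᵢ j` of allowed digits are arbitrary with at least TWO elements (for instance: the integers with the decimal digits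
`0` and `1` only; the product of the two sets can be as thin as `N ^ ε`), `θ` is a real number and `g`, `h` are
ARBITRARY real functions. The values considered are `θ x y + g(x) + h(y)`; for `θ = 1`, `g = h = 0` these are the
products of two integers with missing digits.
Let `B₁ ≥ 2 D₁ + U₁ + 2`. For almost all elements `n` of an ARBITRARY dense subset `M` of `C₁ × C₂`, ALL moduli `q` within `log ^ D N` of the value
at `n` (and at least `N / log ^ κ N`) satisfy: for all reduced classes `l` modulo `q`, except for at most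
`φ(q) / (log q) ^ U₁` of them, `N(x, y; q, l) ≤ (1 + ε) y / (φ(q) log q)` for ALL real `x`, `y` with
`q (log q) ^ B₁ ≤ y ≤ x ≤ q (log q) ^ (B₁ + D₁)`.

The minimal real additive energy of these values is from `Pool.Agent.X31.M1` - `M3` (in this run);
the theorem for families of small energy is in the starting files (`MP_26a8c3_nt.SparseModuli`).
-/

set_option autoImplicit false

namespace Pool.Agent.Results.MP_26a8c3_nt.BilinearModuli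

open Finset

/-- the integers `0 ≤ n < b ^ m` whose digit at `b ^ j` in base `b` is in `𝒟 j`, for all `j < m` -/
def Digits (b : ℕ) (𝒟 : ℕ → Finset ℕ) (m : ℕ) : Finset ℕ :=
  (range (b ^ m)).filter (fun n => ∀ j < m, n / b ^ j % b ∈ 𝒟 j)

/-- the bilinear function `θ x y + g(x) + h(y)` -/
def bil (θ : ℝ) (g h : ℕ → ℝ) (n : ℕ × ℕ) : ℝ := θ * ((n.1 : ℝ) * n.2) + g n.1 + h n.2

/-- `M` is a set of pairs in `Digits b₁ 𝒟₁ m₁ × Digits b₂ 𝒟₂ m₂` with at least `1 / log ^ D N` of all these pairs, where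
all sets `𝒟ᵢ j` of allowed digits have at least two elements and `m₁ ≤ l m₂`, `m₂ ≤ l m₁`; the number `θ` is at most
`log ^ D N` and at least `N / (b₁ ^ m₁ b₂ ^ m₂ log ^ D N)` in absolute value; `g` and `h` are ARBITRARY functions with
`|bil θ g h| ≤ N` on `M`. -/
def Fam (b₁ b₂ l D N m₁ m₂ : ℕ) (𝒟₁ 𝒟₂ : ℕ → Finset ℕ) (θ : ℝ) (g h : ℕ → ℝ) (M : Finset (ℕ × ℕ)) : Prop :=
  (∀ j, 𝒟₁ j ⊆ range b₁ ∧ 2 ≤ (𝒟₁ j).card) ∧ (∀ j, 𝒟₂ j ⊆ range b₂ ∧ 2 ≤ (𝒟₂ j).card) ∧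
  m₁ ≤ l * m₂ ∧ m₂ ≤ l * m₁ ∧
  |θ| ≤ Real.log N ^ D ∧ (N : ℝ) / Real.log N ^ D ≤ |θ| * ((b₁ : ℝ) ^ m₁ * (b₂ : ℝ) ^ m₂) ∧
  M ⊆ Digits b₁ 𝒟₁ m₁ ×ˢ Digits b₂ 𝒟₂ m₂ ∧
  ((Digits b₁ 𝒟₁ m₁).card * (Digits b₂ 𝒟₂ m₂).card : ℝ) / Real.log N ^ D ≤ M.card ∧ ∀ n ∈ M, |bil θ g h n| ≤ N

/-- `N(x, y; q, l)` for `0 ≤ y ≤ x` and `0 ≤ l < q`: the number of the primes `p` with `x - y < p ≤ x` and
`p ≡ l (mod q)` -/
noncomputable def cnt (x y : ℝ) (q l : ℕ) : ℕ :=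
  ((Ioc ⌊x - y⌋₊ ⌊x⌋₊).filter (fun p => p.Prime ∧ p % q = l)).card

open Classical in
/-- For all `l` with `0 ≤ l < q` and `gcd(l, q) = 1`, except for at most `φ(q) / (log q) ^ U₁` of them:
`N(x, y; q, l) ≤ (1 + ε) y / (φ(q) log q)` for ALL real `x`, `y` with
`q (log q) ^ B₁ ≤ y ≤ x ≤ q (log q) ^ (B₁ + D₁)`. -/
def Holds (ε : ℝ) (U₁ B₁ D₁ q : ℕ) : Prop :=
  (((range q).filter (fun l => Nat.Coprime l q ∧ ∃ x y : ℝ, q * Real.log q ^ B₁ ≤ y ∧ y ≤ x ∧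
    x ≤ q * Real.log q ^ (B₁ + D₁) ∧ (1 + ε) * (y / (Nat.totient q * Real.log q)) < cnt x y q l)).card : ℝ) ≤
    Nat.totient q / Real.log q ^ U₁

lemma dat_of {b₁ b₂ l D N m₁ m₂ : ℕ} {𝒟₁ 𝒟₂ : ℕ → Finset ℕ} {θ : ℝ} {g h : ℕ → ℝ} {M : Finset (ℕ × ℕ)}
    (H : Fam b₁ b₂ l D N m₁ m₂ 𝒟₁ 𝒟₂ θ g h M) : Pool.Agent.X31.CT.Dat2 b₁ b₂ l D N m₁ m₂ 𝒟₁ 𝒟₂ θ g h M :=
  ⟨H.1, H.2.1, H.2.2.1, H.2.2.2.1, H.2.2.2.2.1, H.2.2.2.2.2.1, H.2.2.2.2.2.2.1, H.2.2.2.2.2.2.2.1,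
    H.2.2.2.2.2.2.2.2⟩

/-- Let `b₁, b₂ ≥ 2` and `l ≥ 1` be integers. Let `D`, `U`, `κ`, `D₁`, `U₁` be natural numbers, `B₁ ≥ 2 D₁ + U₁ + 2` and `0 < ε ≤ 1`. For all
sufficiently large `N`, all numbers `m₁`, `m₂` of digits, ALL sets `𝒟ᵢ j` of allowed
digits, all `θ`, ALL functions `g`, `h` and all sets `M` of pairs with `Fam b₁ b₂ l D N m₁ m₂ 𝒟₁ 𝒟₂ θ g h M`: for all but at most
`#M / log ^ U N` elements `n` of `M`, ALL natural numbers `q ≥ N / log ^ κ N` with `|q - bil θ g h n| ≤ log ^ D N` satisfy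
`Holds ε U₁ B₁ D₁ q`. -/
theorem result (b₁ b₂ l : ℕ) (hb₁ : 2 ≤ b₁) (hb₂ : 2 ≤ b₂) (hl : 1 ≤ l) (D U κ : ℕ) (ε : ℝ)
    (hε : 0 < ε) (hε1 : ε ≤ 1) (B₁ D₁ U₁ : ℕ) (hB₁ : 2 * D₁ + U₁ + 2 ≤ B₁) :
    ∃ N₀ : ℕ, ∀ N : ℕ, N₀ ≤ N → ∀ (m₁ m₂ : ℕ) (𝒟₁ 𝒟₂ : ℕ → Finset ℕ) (θ : ℝ) (g h : ℕ → ℝ) (M : Finset (ℕ × ℕ)),
      Fam b₁ b₂ l D N m₁ m₂ 𝒟₁ 𝒟₂ θ g h M →
      ∃ E : Finset (ℕ × ℕ), (E.card : ℝ) ≤ M.card / Real.log N ^ U ∧ ∀ n ∈ M, n ∉ E →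
        ∀ q : ℕ, (N : ℝ) / Real.log N ^ κ ≤ q → |(q : ℝ) - bil θ g h n| ≤ Real.log N ^ D → Holds ε U₁ B₁ D₁ q := by
  classical
  obtain ⟨N₀, h0⟩ := (Pool.Agent.X31.Sch_bil hb₁ hb₂ l hl).single D U _
    (fun h' _ => Pool.Agent.X31.famO_bt h' ε hε hε1 B₁ D₁ U₁ hB₁ κ)
  refine ⟨N₀ + 3, fun N hN m₁ m₂ 𝒟₁ 𝒟₂ θ g h M hfam => ?_⟩
  have hNr : (3 : ℝ) ≤ N := by exact_mod_cast (by omega : 3 ≤ N)
  have hl : 0 < Real.log N := Real.log_pos (by linarith)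
  obtain ⟨E, hE1, hE2⟩ := h0 N (by omega) M _ ⟨m₁, m₂, 𝒟₁, 𝒟₂, θ, g, h, dat_of hfam, fun _ => rfl⟩
  refine ⟨E, hE1, fun n hn hnE a ha has => ?_⟩
  rw [div_le_iff₀ (by positivity)] at ha
  have ha0 : 0 < a := by
    by_contra hcon
    have h1 : a = 0 := by omega
    rw [h1, Nat.cast_zero, zero_mul] at ha
    linarith
  have h1 := hE2 n hn hnE (a : ℤ) (by push_cast; exact has) (by exact_mod_cast ha0) (by push_cast; exact ha)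
  rw [Int.toNat_natCast] at h1
  exact h1

end Pool.Agent.Results.MP_26a8c3_nt.BilinearModuli
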