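import Pool.Agent.X31.S12
import Pool.Agent.X31.S7

/-!
# The Brun–Titchmarsh inequality with the constant `1`, for almost all residue classes and almost all moduli near
# the values of generalised polynomials

`f(t) = ∑ u_x t ^ x` is an arbitrary finite real combination of real powers of `t` with a positive largest exponent `c`
(for instance `t ^ {3/2}`, `√2 t ^ 3 + t`, `t ^ {1/10}`). The values considered are `b₀ + θ f(n)`, `n ≤ Y`, with arbitrary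
real `b₀` and `θ` for which these values are of size `N` (for instance `θ = N / Y ^ c`).
Let `B₁ ≥ 2 D₁ + U₁ + 2`. For almost all elements `n` of an ARBITRARY dense set `M ⊆ {1, ..., Y}`, ALL moduli `q` within `log ^ D N` of the value
at `n` (and at least `N / log ^ κ N`) satisfy: for all reduced classes `l` modulo `q`, except for at most
`φ(q) / (log q) ^ U₁` of them, `N(x, y; q, l) ≤ (1 + ε) y / (φ(q) log q)` for ALL real `x`, `y` with
`q (log q) ^ B₁ ≤ y ≤ x ≤ q (log q) ^ (B₁ + D₁)`.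

The minimal real additive energy of generalised polynomials is from `Pool.Agent.X31` (`gp_EB`, in this run);
the theorem for families of small energy is in the starting files (`MP_26a8c3_nt.SparseModuli`).
-/

set_option autoImplicit false

namespace Pool.Agent.Results.MP_26a8c3_nt.GeneralisedPolynomialModuli

open Finset

/-- the generalised polynomial with the exponents `x ∈ F` and the coefficients `u x` -/
noncomputable def f (F : Finset ℝ) (u : ℝ → ℝ) (t : ℝ) : ℝ := ∑ x ∈ F, u x * t ^ x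

/-- `M` is a subset of `{1, ..., Y}` with at least `Y / log ^ D N` elements, `Y ≤ N ^ D`; the number `θ` is at most
`log ^ D N` and at least `N / (Y ^ c log ^ D N)` in absolute value, and `|b₀ + θ f(n)| ≤ N` for all `n ∈ M`. -/
def Fam (F : Finset ℝ) (u : ℝ → ℝ) (c : ℝ) (D N Y : ℕ) (θ b₀ : ℝ) (M : Finset ℕ) : Prop :=
  (Y : ℝ) ≤ (N : ℝ) ^ D ∧ |θ| ≤ Real.log N ^ D ∧ (N : ℝ) / Real.log N ^ D ≤ |θ| * (Y : ℝ) ^ c ∧
  M ⊆ Icc 1 Y ∧ (Y : ℝ) / Real.log N ^ D ≤ M.card ∧ ∀ n ∈ M, |b₀ + θ * f F u n| ≤ N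

/-- `N(x, y; q, l)` for `0 ≤ y ≤ x` and `0 ≤ l < q`: the number of the primes `p` with `x - y < p ≤ x` and
`p ≡ l (mod q)` -/
noncomputable def cnt (x y : ℝ) (q l : ℕ) : ℕ :=
  ((Ioc ⌊x - y⌋₊ ⌊x⌋₊).filter (fun p => p.Prime ∧ p % q = l)).card

open Classical in
/-- For all `l` with `0 ≤ l < q` and `gcd(l, q) = 1`, except for at most `φ(q) / (log q) ^ U₁` of them:
`N(x, y; q, l) ≤ (1 + ε) y / (φ(q) log q)` for ALL real `x`, `y` with
`q (log q) ^ B₁ ≤ y ≤ x ≤ q (log q) ^ (B₁ + D₁)`. -/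
def Holds (ε : ℝ) (U₁ B₁ D₁ q : ℕ) : Prop :=
  (((range q).filter (fun l => Nat.Coprime l q ∧ ∃ x y : ℝ, q * Real.log q ^ B₁ ≤ y ∧ y ≤ x ∧
    x ≤ q * Real.log q ^ (B₁ + D₁) ∧ (1 + ε) * (y / (Nat.totient q * Real.log q)) < cnt x y q l)).card : ℝ) ≤
    Nat.totient q / Real.log q ^ U₁

lemma dat_of {F : Finset ℝ} {u : ℝ → ℝ} {c : ℝ} {D N Y : ℕ} {θ b₀ : ℝ} {M : Finset ℕ}
    (h : Fam F u c D N Y θ b₀ M) : Pool.Agent.X31.DatG c D N Y θ b₀ (fun n => Pool.Agent.X31.gp F u n) M :=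
  ⟨h.1, h.2.1, h.2.2.1, h.2.2.2.1, h.2.2.2.2.1, h.2.2.2.2.2⟩

/-- Let `F` be a finite set of real numbers with the maximum `c > 0`, `u c ≠ 0`, and
`f(t) = ∑_{x ∈ F} u x * t ^ x`. Let `D`, `U`, `κ`, `D₁`, `U₁` be natural numbers, `B₁ ≥ 2 D₁ + U₁ + 2` and `0 < ε ≤ 1`. For all
sufficiently large `N`, all `Y`, all real `θ`, `b₀` and all sets `M` with
`Fam F u c D N Y θ b₀ M`: for all but at most
`#M / log ^ U N` elements `n` of `M`, ALL natural numbers `q ≥ N / log ^ κ N` with `|q - (b₀ + θ * f F u n)| ≤ log ^ D N` satisfy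
`Holds ε U₁ B₁ D₁ q`. -/
theorem result (F : Finset ℝ) (u : ℝ → ℝ) (c : ℝ) (hcF : c ∈ F) (hmax : ∀ x ∈ F, x ≤ c)
    (huc : u c ≠ 0) (hc : 0 < c) (D U κ : ℕ) (ε : ℝ)
    (hε : 0 < ε) (hε1 : ε ≤ 1) (B₁ D₁ U₁ : ℕ) (hB₁ : 2 * D₁ + U₁ + 2 ≤ B₁) :
    ∃ N₀ : ℕ, ∀ N : ℕ, N₀ ≤ N → ∀ (Y : ℕ) (θ b₀ : ℝ) (M : Finset ℕ), Fam F u c D N Y θ b₀ M →
      ∃ E : Finset ℕ, (E.card : ℝ) ≤ M.card / Real.log N ^ U ∧ ∀ n ∈ M, n ∉ E →
        ∀ q : ℕ, (N : ℝ) / Real.log N ^ κ ≤ q → |(q : ℝ) - (b₀ + θ * f F u n)| ≤ Real.log N ^ D → Holds ε U₁ B₁ D₁ q := by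
  classical
  obtain ⟨N₀, h0⟩ := (Pool.Agent.X31.Sch_gp F u c hcF hmax huc hc).single D U _
    (fun h' _ => Pool.Agent.X31.famO_bt h' ε hε hε1 B₁ D₁ U₁ hB₁ κ)
  refine ⟨N₀ + 3, fun N hN Y θ b₀ M hfam => ?_⟩
  have hNr : (3 : ℝ) ≤ N := by exact_mod_cast (by omega : 3 ≤ N)
  have hl : 0 < Real.log N := Real.log_pos (by linarith)
  obtain ⟨E, hE1, hE2⟩ := h0 N (by omega) M _ ⟨Y, θ, b₀, dat_of hfam, fun _ => rfl⟩
  refine ⟨E, hE1, fun n hn hnE a ha has => ?_⟩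
  rw [div_le_iff₀ (by positivity)] at ha
  have ha0 : 0 < a := by
    by_contra hcon
    have h1 : a = 0 := by omega
    rw [h1, Nat.cast_zero, zero_mul] at ha
    linarith
  have h1 := hE2 n hn hnE (a : ℤ) (by push_cast; exact has) (by exact_mod_cast ha0) (by push_cast; exact ha)
  rw [Int.toNat_natCast] at h1
  exact h1

end Pool.Agent.Results.MP_26a8c3_nt.GeneralisedPolynomialModuli
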