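import Pool.Agent.X31.S12
import Pool.Agent.X31.V2

/-!
# The Brun–Titchmarsh inequality with the constant `1`, for almost all residue classes and almost all moduli near
# the values of `n ^ k₀ log n` plus lower terms at integers with missing digits

`f(t) = t ^ k₀ log t + ∑ u_x t ^ x`, where `k₀ ≥ 1` is an integer and the sum is an arbitrary finite real combination of
real powers of `t` with exponents at most `k₀` (for instance `t log t - t`), `C` is the set of the integers with `m` digits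
in base `b` whose digit at `b ^ j` is in `𝒟 j`, where the sets `𝒟 j` of allowed digits are arbitrary with at least TWO
elements (for instance: the integers with the decimal digits `0` and `1` only; such sets can be as thin as `N ^ ε`). The
values considered are `b₀ + θ f(n)`, `n ∈ C`.
Let `B₁ ≥ 2 D₁ + U₁ + 2`. For almost all elements `n` of an ARBITRARY dense subset `M` of `C`, ALL moduli `q` within `log ^ D N` of the value
at `n` (and at least `N / log ^ κ N`) satisfy: for all reduced classes `l` modulo `q`, except for at most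
`φ(q) / (log q) ^ U₁` of them, `N(x, y; q, l) ≤ (1 + ε) y / (φ(q) log q)` for ALL real `x`, `y` with
`q (log q) ^ B₁ ≤ y ≤ x ≤ q (log q) ^ (B₁ + D₁)`.

The minimal real additive energy of these values is from `Pool.Agent.X31.V1`, `V2` and `R1` - `R3` (in this run);
the theorem for families of small energy is in the starting files (`MP_26a8c3_nt.SparseModuli`).
-/

set_option autoImplicit false

namespace Pool.Agent.Results.MP_26a8c3_nt.LogPowerModuli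

open Finset

/-- the integers `0 ≤ n < b ^ m` whose digit at `b ^ j` in base `b` is in `𝒟 j`, for all `j < m` -/
def Digits (b : ℕ) (𝒟 : ℕ → Finset ℕ) (m : ℕ) : Finset ℕ :=
  (range (b ^ m)).filter (fun n => ∀ j < m, n / b ^ j % b ∈ 𝒟 j)

/-- the function `t ^ k₀ log t + ∑ u x * t ^ x` (over the exponents `x ∈ F`) -/
noncomputable def f (k₀ : ℕ) (F : Finset ℝ) (u : ℝ → ℝ) (t : ℝ) : ℝ := t ^ k₀ * Real.log t + ∑ x ∈ F, u x * t ^ x

/-- `M` is a subset with at least `#(Digits b 𝒟 m) / log ^ D N` elements of the set `Digits b 𝒟 m`, where all sets `𝒟 j`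
of allowed digits have at least two elements; the number `θ` is at most `log ^ D N` and at least
`N / (b ^ (k₀ m) log ^ D N)` in absolute value, and `|b₀ + θ f(n)| ≤ N` for all `n ∈ M`. -/
def Fam (b k₀ : ℕ) (F : Finset ℝ) (u : ℝ → ℝ) (D N m : ℕ) (𝒟 : ℕ → Finset ℕ) (θ b₀ : ℝ) (M : Finset ℕ) : Prop :=
  (∀ j, 𝒟 j ⊆ range b ∧ 2 ≤ (𝒟 j).card) ∧
  |θ| ≤ Real.log N ^ D ∧ (N : ℝ) / Real.log N ^ D ≤ |θ| * ((b : ℝ) ^ m) ^ k₀ ∧
  M ⊆ Digits b 𝒟 m ∧ ((Digits b 𝒟 m).card : ℝ) / Real.log N ^ D ≤ M.card ∧ ∀ n ∈ M, |b₀ + θ * f k₀ F u n| ≤ N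

/-- `N(x, y; q, l)` for `0 ≤ y ≤ x` and `0 ≤ l < q`: the number of the primes `p` with `x - y < p ≤ x` and
`p ≡ l (mod q)` -/
noncomputable def cnt (x y : ℝ) (q l : ℕ) : ℕ :=
  ((Ioc ⌊x - y⌋₊ ⌊x⌋₊).filter (fun p => p.Prime ∧ p % q = l)).card

open Classical in
/-- For all `l` with `0 ≤ l < q` and `gcd(l, q) = 1`, except for at most `φ(q) / (log q) ^ U₁` of them:
`N(x, y; q, l) ≤ (1 + ε) y / (φ(q) log q)` for ALL real `x`, `y` with
`q (log q) ^ B₁ ≤ y ≤ x ≤ q (log q) ^ (B₁ + D₁)`. -/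
def Holds (ε : ℝ) (U₁ B₁ D₁ q : ℕ) : Prop :=
  (((range q).filter (fun l => Nat.Coprime l q ∧ ∃ x y : ℝ, q * Real.log q ^ B₁ ≤ y ∧ y ≤ x ∧
    x ≤ q * Real.log q ^ (B₁ + D₁) ∧ (1 + ε) * (y / (Nat.totient q * Real.log q)) < cnt x y q l)).card : ℝ) ≤
    Nat.totient q / Real.log q ^ U₁

lemma dat_of {b k₀ : ℕ} {F : Finset ℝ} {u : ℝ → ℝ} {D N m : ℕ} {𝒟 : ℕ → Finset ℕ} {θ b₀ : ℝ} {M : Finset ℕ}
    (h : Fam b k₀ F u D N m 𝒟 θ b₀ M) :
    Pool.Agent.X31.CT.Dat3 b k₀ D N m 𝒟 θ b₀ (Pool.Agent.X31.lgp k₀ F u) M :=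
  ⟨h.1, h.2.1, by rw [Real.rpow_natCast]; exact h.2.2.1, h.2.2.2.1, h.2.2.2.2.1, h.2.2.2.2.2⟩

/-- Let `b ≥ 2`, `k₀ ≥ 1` be integers, let `F` be a finite set of real numbers `x ≤ k₀`, and
`f(t) = t ^ k₀ log t + ∑_{x ∈ F} u x * t ^ x`. Let `D`, `U`, `κ`, `D₁`, `U₁` be natural numbers, `B₁ ≥ 2 D₁ + U₁ + 2` and `0 < ε ≤ 1`. For all
sufficiently large `N`, all numbers `m` of digits, ALL sets `𝒟 j` of allowed digits, all
real `θ`, `b₀` and all sets `M` with `Fam b k₀ F u D N m 𝒟 θ b₀ M`: for all but at most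
`#M / log ^ U N` elements `n` of `M`, ALL natural numbers `q ≥ N / log ^ κ N` with `|q - (b₀ + θ * f k₀ F u n)| ≤ log ^ D N` satisfy
`Holds ε U₁ B₁ D₁ q`. -/
theorem result (b k₀ : ℕ) (hb : 2 ≤ b) (hk₀ : 1 ≤ k₀) (F : Finset ℝ) (u : ℝ → ℝ)
    (hF : ∀ x ∈ F, x ≤ k₀) (D U κ : ℕ) (ε : ℝ)
    (hε : 0 < ε) (hε1 : ε ≤ 1) (B₁ D₁ U₁ : ℕ) (hB₁ : 2 * D₁ + U₁ + 2 ≤ B₁) :
    ∃ N₀ : ℕ, ∀ N : ℕ, N₀ ≤ N → ∀ (m : ℕ) (𝒟 : ℕ → Finset ℕ) (θ b₀ : ℝ) (M : Finset ℕ), Fam b k₀ F u D N m 𝒟 θ b₀ M →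
      ∃ E : Finset ℕ, (E.card : ℝ) ≤ M.card / Real.log N ^ U ∧ ∀ n ∈ M, n ∉ E →
        ∀ q : ℕ, (N : ℝ) / Real.log N ^ κ ≤ q → |(q : ℝ) - (b₀ + θ * f k₀ F u n)| ≤ Real.log N ^ D → Holds ε U₁ B₁ D₁ q := by
  classical
  obtain ⟨N₀, h0⟩ := (Pool.Agent.X31.Sch_lg hb k₀ hk₀ F u hF).single D U _
    (fun h' _ => Pool.Agent.X31.famO_bt h' ε hε hε1 B₁ D₁ U₁ hB₁ κ)
  refine ⟨N₀ + 3, fun N hN m 𝒟 θ b₀ M hfam => ?_⟩
  have hNr : (3 : ℝ) ≤ N := by exact_mod_cast (by omega : 3 ≤ N)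
  have hl : 0 < Real.log N := Real.log_pos (by linarith)
  obtain ⟨E, hE1, hE2⟩ := h0 N (by omega) M _ ⟨m, 𝒟, θ, b₀, dat_of hfam, fun _ => rfl⟩
  refine ⟨E, hE1, fun n hn hnE a ha has => ?_⟩
  rw [div_le_iff₀ (by positivity)] at ha
  have ha0 : 0 < a := by
    by_contra hcon
    have h1 : a = 0 := by omega
    rw [h1, Nat.cast_zero, zero_mul] at ha
    linarith
  have h1 := hE2 n hn hnE (a : ℤ) (by push_cast; exact has) (by exact_mod_cast ha0) (by push_cast; exact ha)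
  rw [Int.toNat_natCast] at h1
  exact h1

end Pool.Agent.Results.MP_26a8c3_nt.LogPowerModuli
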